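import Pool.Agent.Q27.LB.Col

/-!
# Groups with almost prescribed local action on trees

`ClosedE C` and `ClosedA C` list closure properties of the class of the groups which satisfy the
A-theoretic Farrell–Jones conjecture with coefficients and finite wreath products.

Outline of the proof. Let `P` fix the vertex `v`. The elements which are regular outside the ball of
radius `n` are a subgroup, and these subgroups exhaust `P`. An element which fixes an edge with
regular end point `u` is trivial on the star of `u`; so an element of such a subgroup which fixes
the ball of radius `n + 1` is trivial, and an element which fixes the ball of radius `m ≥ 1` is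
trivial on the stars of all but finitely many vertices at distance `m`. The action on the sphere of
radius `m` with the local actions is a monomial representation, and its kernel on the elements that
fix the ball is in the class of the finitary monomial groups, which are limits of virtual products of
local groups. For (2), the same filtration has finite index steps for finitely generated groups
which fix an edge; so the edge stabilizers are locally finite, and the theorem on acylindrical
actions with conditions on the finitely generated subgroups of the edge stabilizers applies to the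
subgroup of index at most two which preserves the two colouring of the tree.
-/

set_option autoImplicit false

namespace Pool.Agent.Results.MP_63c928_gt.AlmostPrescribedActions

open Pool.Agent.Y110.FJ (ClosedE)
open Q182.Cyl (ClosedA)

/-- Let `C` be a class of groups with the closure properties `ClosedE C`, and let the group `P` act
faithfully on the tree `T`.
(A) Let `G₀` be a group which acts on `T` with trivial edge stabilizers. Suppose that for every `p` in
`P` there are only finitely many vertices `u` such that `p` does not agree with any element of `G₀` on
the star of `u`, and that for every vertex `u` the group of permutations which the stabilizer of `u` in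
`P` induces on the neighbours of `u` is in `C`. Then the stabilizers in `P` of all vertices are in `C`.
If moreover `ClosedA C`, and every finitely generated subgroup of `P` which fixes an edge induces a
finite group on the neighbours of its end points, then `P` is in `C`.
(B) Let `κ` be a colouring of the edges of `T` such that every vertex has exactly one edge of each
colour in `Ω`, and let `F`, `F'` be groups of permutations of `Ω` such that the nontrivial elements of
`F` fix no colour. Suppose that every element of `P` acts on the star of every vertex as an element of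
`F'`, and on the stars of all but finitely many vertices as an element of `F`. If `F'` is in `C` then
the stabilizers in `P` of all vertices are in `C`. If moreover `ClosedA C`, and the stabilizers in `F'`
of the colours are locally finite, then `P` is in `C`. -/
theorem result (C : ∀ (G : Type) [Group G], Prop) (hC : ClosedE C)
    (V : Type) (T : SimpleGraph V) (hT : T.IsTree) (P : Type) [Group P] [MulAction P V]
    (hadj : ∀ (p : P) (v w : V), T.Adj v w → T.Adj (p • v) (p • w))
    (hfaith : ∀ p : P, (∀ v : V, p • v = v) → p = 1) :
    (∀ (G₀ : Type) [Group G₀] [MulAction G₀ V],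
      (∀ (g : G₀) (v w : V), T.Adj v w → T.Adj (g • v) (g • w)) →
      (∀ (g : G₀) (u w : V), T.Adj u w → g • u = u → g • w = w → ∀ x : V, g • x = x) →
      (∀ p : P, {u | ¬ ∃ g : G₀, g • u = p • u ∧ ∀ w, T.Adj u w → g • w = p • w}.Finite) →
      (∀ u : V, ∃ (Q : Type) (_ : Group Q) (φ : MulAction.stabilizer P u →* Q), C Q ∧
        ∀ p : MulAction.stabilizer P u, φ p = 1 ↔ ∀ w, T.Adj u w → (p : P) • w = w) →
      (∀ v : V, C (MulAction.stabilizer P v)) ∧
      (ClosedA C → (∀ u w : V, T.Adj u w → ∀ E : Subgroup P, E.FG →
        (∀ e ∈ E, e • u = u ∧ e • w = w) →
        (fixingSubgroup P (T.neighborSet u)).relIndex E ≠ 0) → C P)) ∧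
    (∀ (Ω : Type) (κ : V → V → Ω), (∀ x y, κ x y = κ y x) →
      (∀ (x : V) (a : Ω), ∃! y, T.Adj x y ∧ κ x y = a) →
      ∀ F F' : Subgroup (Equiv.Perm Ω), (∀ σ ∈ F, ∀ a : Ω, σ a = a → σ = 1) → C F' →
      (∀ (p : P) (x : V), ∃ σ ∈ F', ∀ y, T.Adj x y → κ (p • x) (p • y) = σ (κ x y)) →
      (∀ p : P, {x | ¬ ∃ σ ∈ F, ∀ y, T.Adj x y → κ (p • x) (p • y) = σ (κ x y)}.Finite) →
      (∀ v : V, C (MulAction.stabilizer P v)) ∧
      (ClosedA C → (∀ (a : Ω) (S : Finset (Equiv.Perm Ω)), (∀ σ ∈ S, σ ∈ F' ∧ σ a = a) →
        Finite (Subgroup.closure (S : Set (Equiv.Perm Ω)))) → C P)) := by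
  constructor
  · intro G₀ _ _ hadj₀ hG₀ hsing hloc
    refine ⟨Q27.LB.vst_mem (G₀ := G₀) hC hT hadj hadj₀ hG₀ hfaith hsing hloc, fun hA hlf => ?_⟩
    refine Q27.LB.main (G₀ := G₀) hA hT hadj hadj₀ hG₀ hfaith hsing hloc fun u w h E hE hEu => ?_
    have h1 : (Q27.LB.KSt P T u).subgroupOf E
        = (fixingSubgroup P (T.neighborSet u)).subgroupOf E := by
      ext ⟨e, he⟩
      rw [Subgroup.mem_subgroupOf, Subgroup.mem_subgroupOf, mem_fixingSubgroup_iff]
      exact ⟨fun h => h.2, fun h => ⟨(hEu e he).1, h⟩⟩
    have h2 := hlf u w h E hE hEu
    show ((Q27.LB.KSt P T u).subgroupOf E).index ≠ 0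
    rw [h1]
    exact h2
  · intro Ω κ h1 h2 F F' hF hF' hP' hP
    exact ⟨Q27.LB.col_vertex hC hT ⟨h1, h2⟩ F F' hF hF' hadj hfaith hP' hP,
      fun hA hlf => Q27.LB.col_main hA hT ⟨h1, h2⟩ F F' hF hF' hlf hadj hfaith hP' hP⟩

end Pool.Agent.Results.MP_63c928_gt.AlmostPrescribedActions
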