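import Pool.Agent.Q27.CT.Fam

/-!
# Contracting self-similar groups

`Wr X G` is the permutational wreath product: pairs of a function `s : X → G` and a permutation `p`
of `X`. A self-similar structure on `G` is a homomorphism `φ : G → Wr X G`; here it is injective,
which is the case if the action of `G` on the words over `X` is faithful.
-/

set_option autoImplicit false

namespace Pool.Agent.Results.MP_63c928_gt.ContractingGroups

open Pool.Agent.Y462.SS (Closed Wr)
open Pool.Agent.Y110.FJ (ClosedE)
open Q27.CT (Falls IsNuc Nuc)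

theorem result (C : ∀ (G : Type) [Group G], Prop) (hC : Closed C) (X : Type) [Finite X]
    (G : Type) [Group G] (φ : G →* Wr X G) (hφ : Function.Injective φ) :
    -- (1) the group presented by the nucleus
    (∀ S : Set G, IsNuc φ S → C (Nuc S) → C G) ∧
    -- (2) nuclei which are unions of two subgroups
    (∀ A B : Subgroup G, C A → C B → A ⊓ B = ⊥ → IsNuc φ ((A : Set G) ∪ B) → C G) ∧
    -- (3) spinal groups
    (∀ A B : Subgroup G, C B → A ⊓ B = ⊥ → A ⊔ B = ⊤ → (∀ a ∈ A, ∀ x, (φ a).s x = 1) →
      (∀ b ∈ B, ∀ x, (φ b).s x ∈ A ∨ (φ b).s x ∈ B) → C G) ∧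
    -- (4) nuclei which are unions of many subgroups
    (ClosedE C → ∀ (ι : Type) (A : ι → Subgroup G), (∀ i, C (A i)) →
      (∀ i j, ∀ s ∈ A i, ∀ t ∈ A j, (∃ k, s * t ∈ A k) → i = j ∨ s = 1 ∨ t = 1) →
      IsNuc φ {s : G | ∃ i, s ∈ A i} → C G) := by
  refine ⟨fun S hS hN => Q27.CT.main hC hφ hS hN, fun A B hA hB hAB hS =>
    Q27.CT.main hC hφ hS (Q27.CT.nuc_pair hC A B hA hB hAB), ?_, fun hE ι A hA hAA hS =>
    Q27.CT.main hC hφ hS (Q27.CT.nuc_family hE A hA hAA)⟩
  intro A B hB hAB hgen hA hBs
  -- the group `A` is finite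
  have hAf : Finite A := by
    have h1 : Function.Injective (fun a : A => (φ a).p) := by
      intro a b hab
      apply Subtype.ext
      apply hφ
      apply Wr.ext
      · funext x
        rw [hA a a.2, hA b b.2]
      · exact hab
    have : Finite (Equiv.Perm X) := inferInstance
    exact Finite.of_injective _ h1
  have hCA : C A := by
    refine hC.finiteIndex A ⊥ inferInstance ?_
    refine hC.of_injective _ (Multiplicative ℤ) 1 ?_ hC.int
    intro a b _
    exact Subtype.ext ((Subgroup.mem_bot.1 a.2).trans (Subgroup.mem_bot.1 b.2).symm)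
  exact Q27.CT.main hC hφ (Q27.CT.isNuc_spinal A B hgen hA hBs)
    (Q27.CT.nuc_pair hC A B hCA hB hAB)

end Pool.Agent.Results.MP_63c928_gt.ContractingGroups
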