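import Pool.Agent.H3.UnfE

/-!
# MP_63c928_gt: groups acting on trees with locally virtually cyclic edge stabilizers

`Q182.Cyl.ClosedA C` is the list of closure properties of the class of the groups which satisfy
the Farrell-Jones conjecture for `A`-theory with coefficients and finite wreath products, closure
under acylindrical actions on trees included.

`G` acts on a tree so that the vertex stabilizers are in `C`, and `ρ : G → Q` is a homomorphism
to a group in `C`. It is enough to assume conditions on the finitely generated subgroups `S` of the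
edge stabilizers: if `ρ` maps `S` to a cyclic group, then `S` is virtually cyclic; and elements of
infinite order of the edge stabilizers which are killed by `ρ` are balanced. The edge stabilizers
need not be finitely generated.
-/

set_option autoImplicit false

namespace Pool.Agent.Results.MP_63c928_gt.LocallyVirtuallyCyclicEdges

open Q182.Cyl (ClosedA)

theorem result (C : ∀ (G : Type) [Group G], Prop) (hC : ClosedA C)
    (G Q V : Type) [Group G] [Group Q] [MulAction G V] (ρ : G →* Q) (hQ : C Q)
    (T : SimpleGraph V) (hT : T.IsTree)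
    (hadj : ∀ (g : G) (v w : V), T.Adj v w → T.Adj (g • v) (g • w))
    (hinv : ∀ (g : G) (v w : V), T.Adj v w → ¬ (g • v = w ∧ g • w = v))
    (hst : ∀ v : V, C (MulAction.stabilizer G v)) :
    -- (1) locally virtually cyclic edge stabilizers, over a quotient
    ((∀ v w : V, T.Adj v w → ∀ S : Subgroup G, S.FG →
        S ≤ MulAction.stabilizer G v ⊓ MulAction.stabilizer G w →
        (∃ c : Q, ∀ s ∈ S, ρ s ∈ Subgroup.zpowers c) →
        ∃ z ∈ S, (Subgroup.zpowers z).relIndex S ≠ 0) →
      (∀ v w : V, T.Adj v w → ∀ h : G, h • v = v → h • w = w → (∀ n : ℕ, 0 < n → h ^ n ≠ 1) →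
        ρ h = 1 → ∀ (g : G) (m n : ℤ), g * h ^ m * g⁻¹ = h ^ n → |m| = |n|) → C G) ∧
    -- (2) the case of homomorphisms with locally finite kernels: no further condition
    ((∀ v w : V, T.Adj v w → ∀ S : Subgroup G, S.FG →
        S ≤ MulAction.stabilizer G v ⊓ MulAction.stabilizer G w →
        {g : G | g ∈ S ∧ ρ g = 1}.Finite) → C G) := by
  have h1 : (∀ v w : V, T.Adj v w → ∀ S : Subgroup G, S.FG →
        S ≤ MulAction.stabilizer G v ⊓ MulAction.stabilizer G w →
        (∃ c : Q, ∀ s ∈ S, ρ s ∈ Subgroup.zpowers c) →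
        ∃ z ∈ S, (Subgroup.zpowers z).relIndex S ≠ 0) →
      (∀ v w : V, T.Adj v w → ∀ h : G, h • v = v → h • w = w → (∀ n : ℕ, 0 < n → h ^ n ≠ 1) →
        ρ h = 1 → ∀ (g : G) (m n : ℤ), g * h ^ m * g⁻¹ = h ^ n → |m| = |n|) → C G := by
    intro hvc hbal
    exact Pool.Agent.H3.Unf.main hC ρ hQ hT hadj hinv hst hvc
      (fun v w hvw h hh hinf hρ g m n hg => hbal v w hvw h hh.1 hh.2 hinf hρ g m n hg)
  refine ⟨h1, ?_⟩
  intro hfin
  refine h1 ?_ ?_
  · rintro v w hvw S hS hSE ⟨c, hc⟩
    exact Q182.Fk.vc_of_fin ρ S (hfin v w hvw S hS hSE) c hc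
  · intro v w hvw h hv hw hinf hρ g m n _
    exfalso
    have h2 := hfin v w hvw (Subgroup.zpowers h) ⟨{h}, by
      rw [Finset.coe_singleton, Subgroup.zpowers_eq_closure]⟩ (by
      rw [Subgroup.zpowers_le]
      exact ⟨hv, hw⟩)
    have h3 : ¬ Set.InjOn (fun j : ℕ => h ^ j) Set.univ := by
      intro hinj
      have h4 : (Set.univ : Set ℕ).Finite := by
        refine Set.Finite.of_finite_image (h2.subset ?_) hinj
        rintro _ ⟨j, _, rfl⟩
        refine ⟨Subgroup.npow_mem_zpowers h j, ?_⟩
        show ρ (h ^ j) = 1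
        rw [map_pow, hρ, one_pow]
      exact Set.infinite_univ h4
    simp only [Set.InjOn, Set.mem_univ, true_implies, not_forall] at h3
    obtain ⟨a, b, h4, h5⟩ := h3
    rcases lt_or_gt_of_ne h5 with h6 | h6
    · refine hinf (b - a) (by omega) ?_
      have h7 : h ^ b = h ^ a * h ^ (b - a) := by
        rw [← pow_add]
        congr 1
        omega
      rw [h7] at h4
      exact (mul_eq_left.1 h4.symm)
    · refine hinf (a - b) (by omega) ?_
      have h7 : h ^ a = h ^ b * h ^ (a - b) := by
        rw [← pow_add]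
        congr 1
        omega
      rw [h7] at h4
      exact (mul_eq_left.1 h4)

end Pool.Agent.Results.MP_63c928_gt.LocallyVirtuallyCyclicEdges
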