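import Pool.Agent.Q182.PlFin

/-!
# Groups of polynomial automorphisms of the plane

`C` is any class of groups with the closure properties `ClosedE C`, all of which are known for the
class of the groups that satisfy the A-theoretic Farrell–Jones conjecture with coefficients and
finite wreath products. `Au K` is the group of the `K`-algebra automorphisms of `K[x, y]`, `Tame K`
is its subgroup generated by the affine and the elementary automorphisms (by the theorem of Jung and
van der Kulk it is the whole group), and `pt φ p` is the image of the point `p` of the plane under
the polynomial map given by `φ`.

Outline of the proof. The group `Γ_d` generated by the linear automorphisms and the triangular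
automorphisms of degree at most `d` which fix the origin is the amalgamated product of these two
groups (ping-pong on the degrees of parametrized curves), and its homomorphism to the linear group
of the `d`-jets at the origin is injective on both factors. So `Γ_d` is in `C`, and hence also the
union `Γ` of the `Γ_d`. Each tame automorphism is the product of an element of `Γ` and a translation,
so that `Γ` contains all tame automorphisms which fix the origin. If the orbit of `p` is finite, then
the stabilizer of `p` has finite index and is conjugate by a translation to a subgroup of `Γ`. Over
an algebraic extension of `𝔽_p` finitely many automorphisms and finitely many points are defined over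
a finite field, so that finitely generated groups have finite orbits.
-/

set_option autoImplicit false

namespace Pool.Agent.Results.MP_63c928_gt.PlaneAutomorphisms

open Pool.Agent.Y110.FJ (ClosedE)
open Q182.Pl (Au Tame pt)

/-- Let `C` be a class of groups with the closure properties `ClosedE C`.

1. Let `K` be a field such that the linear groups `GL_n(K)` are in `C`. Every group `G` of tame
automorphisms of the plane over `K` for which some point of the plane has a finite orbit is in `C`.

2. If `K` is an algebraic extension of `𝔽_p`, then the group of all tame automorphisms of the plane
over `K` is in `C`. -/
theorem result (C : ∀ (G : Type) [Group G], Prop) (hC : ClosedE C) :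
    (∀ (K : Type) [Field K], (∀ n : ℕ, C (GL (Fin n) K)) →
      ∀ G : Subgroup (Au K), G ≤ Tame K → ∀ p : Fin 2 → K,
        {q | ∃ φ ∈ G, pt φ p = q}.Finite → C G) ∧
    (∀ (K : Type) [Field K] (p : ℕ) [Fact p.Prime] [Algebra (ZMod p) K]
      [Algebra.IsAlgebraic (ZMod p) K], C (Tame K)) :=
  ⟨fun _ _ hK G hG p hp => Q182.Pl.main hC hK G hG p hp,
    fun _ _ p _ _ _ => Q182.Pl.main_fin hC p _ le_rfl⟩

end Pool.Agent.Results.MP_63c928_gt.PlaneAutomorphisms
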